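import Pool.Agent.N418.CZ.Stm

/-!
# Project CZ (helper418), part TSA: the spaces `TS`, `mulD`, `conD` (helper297)
-/

set_option autoImplicit false

namespace Pool.Agent.N297.CZ

open Module Pool.Agent.N418.CZ

/-- the restriction of a tuple -/
def rs {k N : ℕ} (S : Finset (Fin N)) (x : Fin N → Mk k) (s : S) : Mk k := x s

theorem rs_surj {k N : ℕ} (S : Finset (Fin N)) : Function.Surjective (rs (k := k) S) := by
  intro y
  refine ⟨fun i => if h : i ∈ S then y ⟨i, h⟩ else 0, ?_⟩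
  funext s
  simp [rs]

theorem mem_TS {k N : ℕ} {S : Finset (Fin N)} {φ : (Fin N → Mk k) → ℝ} :
    φ ∈ TS k N S ↔ ∃ φ' ∈ T k S, ∀ x, φ x = φ' (rs S x) := by
  unfold TS
  rw [Submodule.mem_map]
  constructor
  · rintro ⟨φ', h1, h2⟩
    exact ⟨φ', h1, fun x => by rw [← h2]; rfl⟩
  · rintro ⟨φ', h1, h2⟩
    exact ⟨φ', h1, by funext x; rw [h2]; rfl⟩

/-- the map from the disjoint union -/
def Fm {m N : ℕ} (e : Fin m → Fin N) (S : Finset (Fin N)) (he : ∀ s, e s ∈ S) :
    Fin m ⊕ (S \ Finset.univ.image e : Finset (Fin N)) → S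
  | Sum.inl s => ⟨e s, he s⟩
  | Sum.inr a => ⟨a, (Finset.mem_sdiff.1 a.2).1⟩

theorem Fm_bij {m N : ℕ} (e : Fin m → Fin N) (S : Finset (Fin N)) (he : ∀ s, e s ∈ S)
    (hi : Function.Injective e) : Function.Bijective (Fm e S he) := by
  constructor
  · rintro (s | a) (s' | a') h
    · have h1 : e s = e s' := congrArg (fun z : S => (z : Fin N)) h
      rw [hi h1]
    · exfalso
      have h1 : e s = a' := congrArg (fun z : S => (z : Fin N)) h
      exact (Finset.mem_sdiff.1 a'.2).2 (Finset.mem_image.2 ⟨s, Finset.mem_univ _, h1⟩)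
    · exfalso
      have h1 : (a : Fin N) = e s' := congrArg (fun z : S => (z : Fin N)) h
      exact (Finset.mem_sdiff.1 a.2).2 (Finset.mem_image.2 ⟨s', Finset.mem_univ _, h1.symm⟩)
    · have h1 : (a : Fin N) = a' := congrArg (fun z : S => (z : Fin N)) h
      rw [Subtype.ext h1]
  · rintro ⟨i, hiS⟩
    by_cases h : ∃ s, e s = i
    · obtain ⟨s, rfl⟩ := h
      exact ⟨Sum.inl s, rfl⟩
    · refine ⟨Sum.inr ⟨i, Finset.mem_sdiff.2 ⟨hiS, ?_⟩⟩, rfl⟩
      intro h1
      obtain ⟨s, -, hs⟩ := Finset.mem_image.1 h1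
      exact h ⟨s, hs⟩

/-- TSA -/
theorem t_TSA (hRE : S_RE) (hMUL : S_MUL) (hCON : S_CON) : S_TSA := by
  intro k m N D hD
  refine ⟨?_, ?_, ?_⟩
  · intro S
    have hfin : FiniteDimensional ℝ (T k S) := by
      unfold T
      exact FiniteDimensional.span_of_finite ℝ (Set.finite_range _)
    have hinj : Function.Injective (LinearMap.funLeft ℝ ℝ (rs (k := k) S)) :=
      LinearMap.funLeft_injective_of_surjective ℝ ℝ _ (rs_surj S)
    have heq : TS k N S = (T k S).map (LinearMap.funLeft ℝ ℝ (rs (k := k) S)) := rfl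
    have hE := Submodule.equivMapOfInjective (LinearMap.funLeft ℝ ℝ (rs (k := k) S)) hinj (T k S)
    refine ⟨?_, ?_⟩
    · rw [heq]
      infer_instance
    · rw [heq, ← hE.finrank_eq]
      exact (hRE k S (Fin S.card) S.equivFin).2
  · intro e S hi he φ hφ
    obtain ⟨φ', hφ', hφx⟩ := mem_TS.1 hφ
    let E : S ≃ Fin m ⊕ (S \ Finset.univ.image e : Finset (Fin N)) :=
      (Equiv.ofBijective _ (Fm_bij e S he hi)).symm
    have h1 := hMUL k (Fin m) (S \ Finset.univ.image e : Finset (Fin N)) D hD φ' hφ'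
    have h2 := (hRE k S _ E).1 _ h1
    refine mem_TS.2 ⟨_, h2, ?_⟩
    intro x
    show D (fun s => x (e s)) * φ x = _
    rw [hφx]
    rfl
  · intro e S hi he φ hφ
    obtain ⟨φ', hφ', hφx⟩ := mem_TS.1 hφ
    let E : S ≃ Fin m ⊕ (S \ Finset.univ.image e : Finset (Fin N)) :=
      (Equiv.ofBijective _ (Fm_bij e S he hi)).symm
    have h1 := (hRE k _ S E.symm).1 _ hφ'
    have h2 := hCON k (Fin m) (S \ Finset.univ.image e : Finset (Fin N)) D hD _ h1
    have h3 := (T k (S \ Finset.univ.image e : Finset (Fin N))).smul_mem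
      (∑ a : Fin m → Fin k, ∑ b : Fin m → Fin k, D (EE a b) ^ 2)⁻¹ h2
    refine mem_TS.2 ⟨_, h3, ?_⟩
    intro x
    show (∑ a : Fin m → Fin k, ∑ b : Fin m → Fin k, D (EE a b) ^ 2)⁻¹ *
      ∑ a : Fin m → Fin k, ∑ b : Fin m → Fin k, D (EE a b) * φ (Function.extend e (EE a b) x) = _
    rw [Pi.smul_apply, smul_eq_mul]
    congr 1
    refine Finset.sum_congr rfl fun a _ => Finset.sum_congr rfl fun b _ => ?_
    congr 1
    rw [hφx]
    congr 1
    funext s
    obtain ⟨u, rfl⟩ := (Fm_bij e S he hi).2 s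
    have hE : E.symm.symm (Fm e S he u) = u := by
      show (Equiv.ofBijective _ (Fm_bij e S he hi)).symm (Fm e S he u) = u
      rw [Equiv.symm_apply_eq]
      rfl
    rw [hE]
    rcases u with i | c
    · show Function.extend e (EE a b) x (e i) = EE a b i
      exact hi.extend_apply _ _ _
    · show Function.extend e (EE a b) x c = x c
      refine Function.extend_apply' _ _ _ ?_
      rintro ⟨i, hci⟩
      exact (Finset.mem_sdiff.1 c.2).2 (Finset.mem_image.2 ⟨i, Finset.mem_univ _, hci⟩)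

end Pool.Agent.N297.CZ
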